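import Pool.Agent.W458.FJ.Stm

set_option autoImplicit false

namespace Pool.Agent.W368.FJ.Z1

open MvPolynomial

theorem scale {ι : Type} [Fintype ι] (a : ι → ℕ) (d : ℕ) (f : MvPolynomial ι ℂ)
    (hf : IsWeightedHomogeneous a f d) (s : ℂ) (v : ι → ℂ) :
    eval (fun i => s ^ a i * v i) f = s ^ d * eval v f := by
  rw [eval_eq', eval_eq', Finset.mul_sum]
  apply Finset.sum_congr rfl
  intro m hm
  have hw : ∑ i, m i * a i = d := by
    have h := hf (mem_support_iff.mp hm)
    rw [Finsupp.weight_apply, Finsupp.sum_fintype _ _ (by simp)] at h
    simpa [smul_eq_mul] using h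
  have h1 : ∏ i, (s ^ a i * v i) ^ m i = s ^ d * ∏ i, v i ^ m i := by
    rw [← hw, ← Finset.prod_pow_eq_pow_sum, ← Finset.prod_mul_distrib]
    apply Finset.prod_congr rfl
    intro i _
    rw [mul_pow, ← pow_mul, mul_comm (a i)]
  rw [h1]
  ring

theorem main : Pool.Agent.W458.FJ.Z1 := by
  intro ι _ _ a ha d hd f hf K hK
  obtain ⟨x, hx, y, hy, hxy⟩ := Finset.one_lt_card.mp hK
  by_cases h0 : eval (Pi.single y (1 : ℂ)) f = 0
  · refine ⟨Pi.single y 1, ?_, ?_, h0⟩
    · intro h
      have := congrFun h y
      simp at this
    · intro i hi
      have : i ≠ y := fun h => hi (h ▸ hy)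
      simp [this]
  · let P : Polynomial ℂ := aeval (fun i => if i = x then (1 : Polynomial ℂ) else
      if i = y then Polynomial.X else 0) f
    have hP : ∀ t : ℂ, P.eval t = eval (fun i => if i = x then (1 : ℂ) else
        if i = y then t else 0) f := by
      intro t
      have h1 : P.eval t = (Polynomial.aeval t) P := by
        rw [Polynomial.coe_aeval_eq_eval]
      rw [h1]
      change (Polynomial.aeval t) (aeval _ f) = _
      rw [← AlgHom.comp_apply, comp_aeval]
      rw [← coe_aeval_eq_eval]
      change aeval _ f = aeval _ f
      congr 2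
      funext i
      split_ifs <;> simp
    have hdeg : P.degree ≠ 0 := by
      intro hdeg
      obtain ⟨c, hc⟩ : ∃ c, P = Polynomial.C c := ⟨_, Polynomial.eq_C_of_degree_eq_zero hdeg⟩
      have hconst : ∀ t : ℂ, eval (fun i => if i = x then (1 : ℂ) else
          if i = y then t else 0) f = c := by
        intro t
        rw [← hP t, hc, Polynomial.eval_C]
      -- the polynomial in the scaling parameter
      let Q : Polynomial ℂ := aeval (fun i => if i = x then Polynomial.X ^ a x else
        if i = y then (1 : Polynomial ℂ) else 0) f
      have hQ : ∀ s : ℂ, Q.eval s = eval (fun i => if i = x then s ^ a x else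
          if i = y then 1 else 0) f := by
        intro s
        have h1 : Q.eval s = (Polynomial.aeval s) Q := by
          rw [Polynomial.coe_aeval_eq_eval]
        rw [h1]
        change (Polynomial.aeval s) (aeval _ f) = _
        rw [← AlgHom.comp_apply, comp_aeval]
        rw [← coe_aeval_eq_eval]
        change aeval _ f = aeval _ f
        congr 2
        funext i
        split_ifs <;> simp
      have hQ1 : ∀ s : ℂ, s ≠ 0 → Q.eval s = s ^ d * c := by
        intro s hs
        rw [hQ, ← hconst (1 / s ^ a y), ← scale a d f hf s]
        congr 2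
        funext i
        by_cases hix : i = x
        · subst hix; simp
        · by_cases hiy : i = y
          · subst hiy
            simp only [hix, if_false, if_true]
            field_simp
          · simp [hix, hiy]
      have hQ2 : Q = Polynomial.C c * Polynomial.X ^ d := by
        apply Polynomial.eq_of_infinite_eval_eq
        apply Set.Infinite.mono (s := {s : ℂ | s ≠ 0})
        · intro s hs
          change Q.eval s = _
          rw [hQ1 s hs, Polynomial.eval_mul, Polynomial.eval_C, Polynomial.eval_pow,
            Polynomial.eval_X, mul_comm]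
        · exact (Set.finite_singleton (0 : ℂ)).infinite_compl
      have h2 : Q.eval 0 = 0 := by
        rw [hQ2, Polynomial.eval_mul, Polynomial.eval_pow, Polynomial.eval_X,
          zero_pow hd.ne', mul_zero]
      apply h0
      have h3 := (hQ 0).symm.trans h2
      have h4 : (Pi.single y (1 : ℂ) : ι → ℂ) = fun i => if i = x then (0 : ℂ) ^ a x else
          if i = y then 1 else 0 := by
        funext i
        by_cases hix : i = x
        · rw [if_pos hix, hix, zero_pow (ha x).ne', Pi.single_apply, if_neg hxy]
        · rw [if_neg hix, Pi.single_apply]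
      rw [h4]
      exact h3
    obtain ⟨t, ht⟩ := IsAlgClosed.exists_root P hdeg
    refine ⟨fun i => if i = x then (1 : ℂ) else if i = y then t else 0, ?_, ?_, ?_⟩
    · intro h
      have := congrFun h x
      simp at this
    · intro i hi
      have h1 : i ≠ x := fun h => hi (h ▸ hx)
      have h2 : i ≠ y := fun h => hi (h ▸ hy)
      simp [h1, h2]
    · rw [← hP]; exact ht

end Pool.Agent.W368.FJ.Z1
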